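import Pool.Agent.Y874.TP2.Defs

/-!
# Movies without monogons and bigons, with arbitrary interior triple points

As `Pool.Agent.Y874.TP2.SMovie`, but the double curves with the colours in the set `Z`, which will be
those not meeting the link at the beginning of the movie, may meet one another in an arbitrary way.
-/

namespace Pool.Agent.Y874.TP3

open Pool.Agent.Y468.SR
open Pool.Agent.Y874.TP (colour TriAt)
open Pool.Agent.Y874.TP2 (CStep prs)

/-- `SMovie Z D T`: the classical link `D` bounds disjoint discs (or planar surfaces, one for each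
label) by a movie ending with the empty diagram, in which births are allowed. Each triple point of
the projection (move of type III) either lies on three double curves with colours in `Z`, or on three
double curves with colours outside `Z`. In the surfaces, no curve of double points with colour
outside `Z` crosses itself, and any two of these curves cross at most once; `T` is the list of the
pairs of these curves crossing one another. -/
inductive SMovie (Z : ℕ → Prop) : Code → List (Sym2 (ℕ × Bool)) → Prop
  | nil : SMovie Z [] []
  | step {D D' : Code} {T : List (Sym2 (ℕ × Bool))} (h : Classical D) (hs : CStep D D')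
      (hm : SMovie Z D' T) : SMovie Z D T
  | three {D D' : Code} {T : List (Sym2 (ℕ × Bool))} (h : Classical D) (A B C E : List (Pass ⊕ ℕ))
      (X Y W t m b : Pass × Pass) (x y z : ℕ) (hT : TriAt x y z t m b)
      (hP : List.Perm [X, Y, W] [t, m, b])
      (hD : enc D = A ++ two X.1 X.2 ++ B ++ two Y.1 Y.2 ++ C ++ two W.1 W.2 ++ E)
      (hD' : enc D' = A ++ two X.2 X.1 ++ B ++ two Y.2 Y.1 ++ C ++ two W.2 W.1 ++ E)
      (hZ : ¬Z (colour x) ∧ ¬Z (colour y) ∧ ¬Z (colour z))
      (hd : ∀ e ∈ prs x y z, ¬e.IsDiag) (hn : (prs x y z ++ T).Nodup) (hm : SMovie Z D' T) :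
      SMovie Z D (prs x y z ++ T)
  | inner {D D' : Code} {T : List (Sym2 (ℕ × Bool))} (h : Classical D) (A B C E : List (Pass ⊕ ℕ))
      (X Y W t m b : Pass × Pass) (x y z : ℕ) (hT : TriAt x y z t m b)
      (hP : List.Perm [X, Y, W] [t, m, b])
      (hD : enc D = A ++ two X.1 X.2 ++ B ++ two Y.1 Y.2 ++ C ++ two W.1 W.2 ++ E)
      (hD' : enc D' = A ++ two X.2 X.1 ++ B ++ two Y.2 Y.1 ++ C ++ two W.2 W.1 ++ E)
      (hZ : Z (colour x) ∧ Z (colour y) ∧ Z (colour z)) (hm : SMovie Z D' T) : SMovie Z D T

end Pool.Agent.Y874.TP3
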