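import Pool.Agent.Y874.TP3.Defs
import Pool.Agent.Y874.TP2.Lift

/-! Project TP3: movies yield the invariant; the interior triple points are dropped. -/

namespace Pool.Agent.Y874.TP2.T3

open Pool.Agent.Y468.SR
open Pool.Agent.Y874.TP

/-- the data of a triple point not depending on names and labels -/
def sig (T : Tri) : (ℕ × ℕ × ℕ) × (Bool × Bool × Bool) :=
  ((colour T.a₁, colour T.b₁, colour T.c₁), (T.ta, T.tb, T.tc))

theorem sig_tprs {T T' : Tri} (h : sig T' = sig T) : tprs T' = tprs T := by
  simp only [sig, Prod.mk.injEq] at h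
  obtain ⟨⟨h1, h2, h3⟩, h4, h5, h6⟩ := h
  simp only [tprs, kap, lc, Tri.pa₁, Tri.pb₁, Tri.pc₁, Pass.mate, h1, h2, h3, h4, h5, h6]

theorem sig_flatMap {Ts Ts' : List Tri} (h : Ts'.map sig = Ts.map sig) :
    Ts'.flatMap tprs = Ts.flatMap tprs := by
  induction Ts generalizing Ts' with
  | nil =>
    have : Ts' = [] := by simpa using h
    rw [this]
  | cons T Ts ih =>
    rcases Ts' with _ | ⟨T', Ts'⟩
    · simp at h
    · simp only [List.map_cons, List.cons.injEq] at h
      rw [List.flatMap_cons, List.flatMap_cons, ih h.2, sig_tprs h.1]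

/-- the invariant without conditions on the pairs of curves -/
structure InvB (D : Code) (Ts : List Tri) : Prop where
  wf : WF (passes (D ++ TC Ts))
  ok : ∀ T ∈ Ts, T.Ok ∧ T.Col
  inv : InvC (D ++ TC Ts)

theorem freshB (hren : S_REN) {D : Code} {Ts : List Tri} (hD : WF (passes D)) (h : InvB D Ts)
    (F : List Pass) : ∃ Ts', InvB D Ts' ∧ Ts'.map sig = Ts.map sig ∧
      ∀ p ∈ F, ∀ q ∈ passes (TC Ts'), q.crossing ≠ p.crossing := by
  classical
  obtain ⟨K, hK⟩ := exists_bound (passes D ++ F)
  set f : ℕ → ℕ := fun c => if ∃ p ∈ passes D, p.crossing = c then c else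
    Nat.pair (colour c) (K + c) with hf
  have f1 : ∀ p ∈ passes D, f p.crossing = p.crossing := by
    intro p hp; rw [hf]; simp only; rw [if_pos ⟨p, hp, rfl⟩]
  have f2 : ∀ p ∈ passes (TC Ts), f p.crossing = Nat.pair (colour p.crossing) (K + p.crossing) := by
    intro p hp
    rw [hf]; simp only
    rw [if_neg]
    rintro ⟨q, hq, h1⟩
    exact sep hD h.wf hq hp h1.symm
  have f3 : ∀ p ∈ passes (TC Ts), ∀ q ∈ passes D ++ F, f p.crossing ≠ q.crossing := by
    intro p hp q hq he
    have := hK q hq
    rw [← he, f2 p hp, Nat.unpair_pair] at this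
    simp only at this
    omega
  have hinj : ∀ p ∈ passes (D ++ TC Ts), ∀ q ∈ passes (D ++ TC Ts),
      f p.crossing = f q.crossing → p.crossing = q.crossing := by
    intro p hp q hq he
    rw [passes_append', List.mem_append] at hp hq
    rcases hp with hp | hp <;> rcases hq with hq | hq
    · rwa [f1 p hp, f1 q hq] at he
    · rw [f1 p hp] at he
      exact absurd he.symm (f3 q hq p (by simp [hp]))
    · rw [f1 q hq] at he
      exact absurd he (f3 p hp q (by simp [hq]))
    · rw [f2 p hp, f2 q hq, Nat.pair_eq_pair] at he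
      omega
  have hcol : ∀ p ∈ passes (D ++ TC Ts), colour (f p.crossing) = colour p.crossing := by
    intro p hp
    rw [passes_append', List.mem_append] at hp
    rcases hp with hp | hp
    · rw [f1 p hp]
    · rw [f2 p hp, colour, Nat.unpair_pair]
  have hcolT : ∀ T ∈ Ts, ∀ c ∈ T.names, colour (f c) = colour c := by
    intro T hT c hc
    obtain ⟨p, hp, rfl⟩ := exists_pass hT hc
    exact hcol p (by rw [passes_append']; simp [hp])
  have hDren : renamed f D = D := by
    unfold renamed
    conv_rhs => rw [← List.map_id D]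
    refine List.map_congr_left fun C hC => ?_
    have : (C.1.map fun p => (⟨f p.crossing, p.isOver, p.isPos⟩ : Pass)) = C.1 := by
      conv_rhs => rw [← List.map_id C.1]
      refine List.map_congr_left fun p hp => ?_
      rw [f1 p (mem_passes.2 ⟨C, hC, hp⟩)]; rfl
    rw [this]; rfl
  have hE : renamed f (D ++ TC Ts) = D ++ TC (Ts.map (Tri.rename f)) := by
    rw [renamed_append, hDren, TC_rename]
  refine ⟨Ts.map (Tri.rename f), ⟨?_, ?_, ?_⟩, ?_, ?_⟩
  · rw [← hE, passes_renamed]
    exact h.wf.ren hinj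
  · intro T' hT'
    obtain ⟨T, hT, rfl⟩ := List.mem_map.1 hT'
    refine ⟨(h.ok T hT).1, ?_⟩
    have h1 := (h.ok T hT).2
    have := hcolT T hT
    simp only [Tri.names, List.mem_cons, List.not_mem_nil, or_false, forall_eq_or_imp,
      forall_eq] at this
    obtain ⟨k1, k2, k3, k4, k5, k6⟩ := this
    unfold Tri.Col Tri.rename
    simp only [k1, k2, k3, k4, k5, k6]
    exact h1
  · rw [← hE]
    exact (hren f _ hinj hcol).1 h.inv
  · rw [List.map_map]
    refine List.map_congr_left fun T hT => ?_
    have := hcolT T hT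
    simp only [Tri.names, List.mem_cons, List.not_mem_nil, or_false, forall_eq_or_imp,
      forall_eq] at this
    simp only [Function.comp, sig, Tri.rename, this.1, this.2.2.1, this.2.2.2.2.1]
  · intro p hp q hq
    rw [TC_rename] at hq
    obtain ⟨q', hq', rfl⟩ := mem_renamed.1 hq
    exact f3 q' hq' p (by simp [hp])

theorem invB_mk {D D' : Code} {Ts : List Tri} (hD : WF (passes D)) (hD' : WF (passes D'))
    (h : InvB D' Ts) (hf : ∀ p ∈ passes D, ∀ q ∈ passes (TC Ts), q.crossing ≠ p.crossing)
    (hi : InvC (D ++ TC Ts)) : InvB D Ts where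
  wf := by
    rw [passes_append']
    exact WF.append hD (wf_right hD' h.wf) fun p hp q hq he => hf p hp q hq he.symm
  ok := h.ok
  inv := hi

theorem sig_relabel (g : ℕ → ℕ) (Ts : List Tri) :
    (Ts.map (Tri.relabel g)).map sig = Ts.map sig := by
  rw [List.map_map]; rfl

theorem cstep_liftB (hreid : S_REID) (hren : S_REN) {D D' : Code} {Ts : List Tri}
    (hD : WF (passes D)) (hD' : WF (passes D')) (hs : CStep D D') (h : InvB D' Ts) :
    ∃ Ts', InvB D Ts' ∧ Ts'.map sig = Ts.map sig := by
  obtain ⟨Ts₁, h₁, hc, hf⟩ := freshB hren hD' h (passes D)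
  rw [← hc]
  clear h hc Ts
  rename' Ts₁ => Ts, h₁ => h
  have hW : WF (passes (D ++ TC Ts)) := by
    rw [passes_append']
    exact WF.append hD (wf_right hD' h.wf) fun p hp q hq he => hf p hp q hq he.symm
  have hi := h.inv
  cases hs with
  | perm _ _ hp =>
    refine ⟨Ts, invB_mk hD hD' h hf ?_, rfl⟩
    exact invC_perm (hp.symm.append_right _) hi
  | rename f _ hfi hfc =>
    refine ⟨Ts, invB_mk hD hD' h hf ?_, rfl⟩
    classical
    set g : ℕ → ℕ := fun c => if ∃ p ∈ passes D, p.crossing = c then f c else c with hg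
    have g1 : ∀ p ∈ passes D, g p.crossing = f p.crossing := by
      intro p hp; rw [hg]; simp only; rw [if_pos ⟨p, hp, rfl⟩]
    have g2 : ∀ p ∈ passes (TC Ts), g p.crossing = p.crossing := by
      intro p hp
      rw [hg]; simp only
      rw [if_neg]
      rintro ⟨q, hq, h1⟩
      exact hf q hq p hp h1.symm
    have g3 : ∀ p ∈ passes D, ∀ q ∈ passes (TC Ts), f p.crossing ≠ q.crossing := by
      intro p hp q hq he
      have h1 : (⟨f p.crossing, p.isOver, p.isPos⟩ : Pass) ∈ passes (renamed f D) :=
        mem_renamed.2 ⟨p, hp, rfl⟩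
      exact sep hD' h.wf h1 hq he.symm
    have e : renamed g (D ++ TC Ts) = renamed f D ++ TC Ts := by
      rw [renamed_append]
      congr 1
      · unfold renamed
        refine List.map_congr_left fun C hC => ?_
        have : (C.1.map fun p => (⟨g p.crossing, p.isOver, p.isPos⟩ : Pass)) =
            C.1.map fun p => (⟨f p.crossing, p.isOver, p.isPos⟩ : Pass) :=
          List.map_congr_left fun p hp => by rw [g1 p (mem_passes.2 ⟨C, hC, hp⟩)]
        rw [this]
      · unfold renamed
        conv_rhs => rw [← List.map_id (TC Ts)]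
        refine List.map_congr_left fun C hC => ?_
        have : (C.1.map fun p => (⟨g p.crossing, p.isOver, p.isPos⟩ : Pass)) = C.1 := by
          conv_rhs => rw [← List.map_id C.1]
          exact List.map_congr_left fun p hp => by
            rw [g2 p (mem_passes.2 ⟨C, hC, hp⟩)]; rfl
        rw [this]; rfl
    refine (hren g _ ?_ ?_).2 (by rw [e]; exact hi)
    · intro p hp q hq he
      rw [passes_append', List.mem_append] at hp hq
      rcases hp with hp | hp <;> rcases hq with hq | hq
      · rw [g1 p hp, g1 q hq] at he; exact hfi p hp q hq he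
      · rw [g1 p hp, g2 q hq] at he; exact absurd he (g3 p hp q hq)
      · rw [g2 p hp, g1 q hq] at he; exact absurd he.symm (g3 q hq p hp)
      · rwa [g2 p hp, g2 q hq] at he
    · intro p hp
      rw [passes_append', List.mem_append] at hp
      rcases hp with hp | hp
      · rw [g1 p hp]; exact hfc p hp
      · rw [g2 p hp]
  | rotate x y b R =>
    refine ⟨Ts, invB_mk hD hD' h hf ?_, rfl⟩
    obtain ⟨m, hm⟩ := hi
    exact ⟨m, by simpa using invM_rotate (R := R ++ TC Ts) (by simpa using hm)⟩
  | reid _ _ hr =>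
    refine ⟨Ts, invB_mk hD hD' h hf ?_, rfl⟩
    refine (hreid _ _ hW ?_).2 hi
    rw [enc_append, enc_append]
    exact creid_append hr _
  | reidInv _ _ hr =>
    refine ⟨Ts, invB_mk hD hD' h hf ?_, rfl⟩
    refine (hreid _ _ h.wf ?_).1 hi
    rw [enc_append, enc_append]
    exact creid_append hr _
  | death b R hb =>
    refine ⟨Ts, invB_mk hD hD' h hf ?_, rfl⟩
    obtain ⟨m, hm⟩ := hi
    refine ⟨m, invM_of (fun r => ?_) (fun G _ o u hn a => ?_) hm⟩
    · simp
    · have := hn a
      simp only [vals, List.map_cons, List.cons_append, bv_cons, wval_nil] at this ⊢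
      split_ifs
      · exact CN.one_cons.2 this
      · exact this
  | birth b R hb =>
    refine ⟨Ts, invB_mk hD hD' h hf ?_, rfl⟩
    obtain ⟨m, hm⟩ := hi
    refine ⟨m, invM_of (fun r => ?_) (fun G _ o u hn a => ?_) hm⟩
    · simp
    · have := hn a
      simp only [vals, List.map_cons, List.cons_append, bv_cons, wval_nil] at this ⊢
      split_ifs at this
      · exact CN.one_cons.1 this
      · exact this
  | split x y b b' R hb =>
    obtain ⟨m, hm⟩ := hi
    have h2 := split_inv (S := R ++ TC Ts) hb hm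
    rw [List.map_append, ← TC_relabel (fun t => if t = b' then b else t) Ts] at h2
    refine ⟨Ts.map (Tri.relabel fun t => if t = b' then b else t), ?_, sig_relabel _ Ts⟩
    refine ⟨?_, fun T hT => ?_, m, h2⟩
    · rw [passes_append'] at hW ⊢
      rw [TC_relabel, passes_relabel (TC Ts) fun t => if t = b' then b else t]
      exact hW
    · obtain ⟨T', hT', rfl⟩ := List.mem_map.1 hT
      exact h.ok T' hT'
  | merge x y b R =>
    refine ⟨Ts, invB_mk hD hD' h hf ?_, rfl⟩
    obtain ⟨m, hm⟩ := hi
    refine ⟨m, invM_of (fun r => ?_) (fun G _ o u hn a => ?_) hm⟩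
    · simp
    · have := hn a
      simp only [vals, List.map_cons, List.cons_append, bv_cons, wval_append] at this ⊢
      split_ifs at this ⊢ with h
      · exact this.cut
      · exact this

theorem three_lift (hthree : S_THREE) {D D' : Code} {Ts : List Tri} {A B C E : List (Pass ⊕ ℕ)}
    {X Y Z t m b : Pass × Pass} {x y z : ℕ} (hT : TriAt x y z t m b)
    (hP : List.Perm [X, Y, Z] [t, m, b])
    (hE : enc D = A ++ two X.1 X.2 ++ B ++ two Y.1 Y.2 ++ C ++ two Z.1 Z.2 ++ E)
    (hE' : enc D' = A ++ two X.2 X.1 ++ B ++ two Y.2 Y.1 ++ C ++ two Z.2 Z.1 ++ E)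
    (h1 : InvB D' Ts) : ∃ T : Tri, InvB D (T :: Ts) ∧
      sig T = ((colour x, colour y, colour z), (true, true, true)) := by
  have hperm : (passes D).Perm (passes D') := by
    rw [← pl_enc, ← pl_enc, hE, hE', List.perm_iff_count]
    intro a
    simp only [pl_append, pl_two, List.count_append, List.count_cons, List.count_nil]
    omega
  have hW : WF (passes (D ++ TC Ts)) := by
    have := h1.wf
    rw [passes_append'] at this ⊢
    exact WF.perm (List.Perm.append_right _ hperm.symm) this
  obtain ⟨K, hK⟩ := exists_bound (passes (D ++ TC Ts))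
  have hfr : ∀ c k, ∀ p ∈ passes (D ++ TC Ts), p.crossing ≠ Nat.pair c (K + k) := by
    intro c k p hp he
    have := hK p hp
    rw [he, Nat.unpair_pair] at this
    simp only at this
    omega
  have hcol : ∀ c k, colour (Nat.pair c (K + k)) = c := fun c k => by
    rw [colour, Nat.unpair_pair]
  have hnd : [Nat.pair (colour x) (K + 0), Nat.pair (colour x) (K + 1),
      Nat.pair (colour y) (K + 2), Nat.pair (colour y) (K + 3), Nat.pair (colour z) (K + 4),
      Nat.pair (colour z) (K + 5)].Nodup := by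
    simp only [List.nodup_cons, List.mem_cons, List.not_mem_nil, or_false, not_or,
      not_false_eq_true, List.nodup_nil, and_true, Nat.pair_eq_pair, not_and]
    refine ⟨⟨fun _ => by omega, fun _ => by omega, fun _ => by omega,
      fun _ => by omega, fun _ => by omega⟩, ⟨fun _ => by omega, fun _ => by omega,
      fun _ => by omega, fun _ => by omega⟩, ⟨fun _ => by omega, fun _ => by omega,
      fun _ => by omega⟩, ⟨fun _ => by omega, fun _ => by omega⟩, fun _ => by omega⟩
  obtain ⟨T', t1, ta, tb, tc, t2, t3, t4, t5, t6, t7, t9⟩ := hthree D D' (TC Ts) A B C E X Y Z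
    t m b x y z
    (Nat.pair (colour x) (K + 0)) (Nat.pair (colour x) (K + 1)) (Nat.pair (colour y) (K + 2))
    (Nat.pair (colour y) (K + 3)) (Nat.pair (colour z) (K + 4)) (Nat.pair (colour z) (K + 5))
    hT hP hE hE' hW hnd (by
      intro c hc
      simp only [List.mem_cons, List.not_mem_nil, or_false] at hc
      rcases hc with rfl | rfl | rfl | rfl | rfl | rfl <;> exact hfr _ _)
    (hcol _ _) (hcol _ _) (hcol _ _) (hcol _ _) (hcol _ _) (hcol _ _) h1.inv
  have hnames : T'.names = [Nat.pair (colour x) (K + 0), Nat.pair (colour x) (K + 1),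
      Nat.pair (colour y) (K + 2), Nat.pair (colour y) (K + 3), Nat.pair (colour z) (K + 4),
      Nat.pair (colour z) (K + 5)] := by
    simp only [Tri.names, t2, t3, t4, t5, t6, t7]
  have hcode : ∀ p ∈ passes T'.code, p.crossing ∈ T'.names := by
    intro p hp
    rw [mem_code] at hp
    rcases hp with rfl | rfl | rfl | rfl | rfl | rfl | rfl | rfl | rfl | rfl | rfl | rfl <;>
      simp [Tri.names, Tri.pa₁, Tri.pa₂, Tri.pb₁, Tri.pb₂, Tri.pc₁, Tri.pc₂, Pass.mate]
  refine ⟨T', ⟨?_, ?_, t9⟩, ?_⟩
  · have h3 : WF (passes T'.code ++ passes (D ++ TC Ts)) := by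
      refine WF.append (wf_code (by rw [hnames]; exact hnd)) hW fun p hp q hq he => ?_
      have := hcode p hp
      rw [hnames] at this
      simp only [List.mem_cons, List.not_mem_nil, or_false] at this
      rw [he] at this
      rcases this with h | h | h | h | h | h <;> exact hfr _ _ q hq h
    refine WF.perm ?_ h3
    rw [TC_cons, passes_append', passes_append', passes_append', ← List.append_assoc,
      ← List.append_assoc]
    exact List.Perm.append_right _ List.perm_append_comm
  · intro T₁ hT₁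
    rcases List.mem_cons.1 hT₁ with rfl | hT₁
    · refine ⟨t1, ?_⟩
      unfold Tri.Col
      rw [t2, t3, t4, t5, t6, t7]
      simp only [hcol, and_self]
    · exact h1.ok T₁ hT₁
  · simp only [sig, ta, tb, tc, t2, t4, t6, hcol]

theorem smovie_classical {Z : ℕ → Prop} {D : Code} {T : List (Sym2 (ℕ × Bool))}
    (h : TP3.SMovie Z D T) : Classical D := by
  cases h with
  | nil => exact classical_empty rfl
  | step h _ _ => exact h
  | three h => exact h
  | inner h => exact h

theorem TC_append (Ts Us : List Tri) : TC (Ts ++ Us) = TC Ts ++ TC Us := by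
  simp [TC]

theorem invB_perm {D : Code} {Ts Ts' : List Tri} (hp : Ts.Perm Ts') (h : InvB D Ts) :
    InvB D Ts' := by
  have hp' : (D ++ TC Ts).Perm (D ++ TC Ts') := List.Perm.append_left _ (hp.flatMap_right _)
  exact ⟨WF.perm (passes_perm hp') h.wf, fun T hT => h.ok T (hp.mem_iff.2 hT),
    invC_perm hp' h.inv⟩

theorem smovie_invB (hreid : S_REID) (hren : S_REN) (hthree : S_THREE) {Z : ℕ → Prop} {D : Code}
    {T : List (Sym2 (ℕ × Bool))} (h : TP3.SMovie Z D T) :
    ∃ Ts Us, InvB D (Ts ++ Us) ∧ Ts.flatMap tprs = T ∧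
      (∀ T ∈ Ts, ¬Z (sig T).1.1 ∧ ¬Z (sig T).1.2.1 ∧ ¬Z (sig T).1.2.2) ∧
      (∀ T ∈ Us, Z (sig T).1.1 ∧ Z (sig T).1.2.1 ∧ Z (sig T).1.2.2) ∧
      (∀ e ∈ T, ¬e.IsDiag) ∧ T.Nodup := by
  induction h with
  | nil =>
    refine ⟨[], [], ⟨?_, by simp, ?_⟩, rfl, by simp, by simp, by simp, by simp⟩
    · exact ⟨by simp [TC], by simp [TC]⟩
    · refine ⟨id, fun p hp => absurd hp (by simp [TC]), fun p hp => absurd hp (by simp [TC]),
        fun G _ o u _ b => ?_⟩
      exact PC.nil
  | @step D D' T hD hs hm ih =>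
    obtain ⟨Ts, Us, h1, h2, h3, h4, h5, h6⟩ := ih
    obtain ⟨W, k1, k2⟩ := cstep_liftB hreid hren hD.1 (smovie_classical hm).1 hs h1
    rw [List.map_append] at k2
    obtain ⟨Ts', Us', rfl, k3, k4⟩ := List.map_eq_append_iff.1 k2
    refine ⟨Ts', Us', k1, (sig_flatMap k3).trans h2, fun T hT => ?_, fun T hT => ?_, h5, h6⟩
    · have : sig T ∈ Ts.map sig := by rw [← k3]; exact List.mem_map_of_mem hT
      obtain ⟨T₀, hT₀, e⟩ := List.mem_map.1 this
      rw [← e]; exact h3 T₀ hT₀
    · have : sig T ∈ Us.map sig := by rw [← k4]; exact List.mem_map_of_mem hT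
      obtain ⟨T₀, hT₀, e⟩ := List.mem_map.1 this
      rw [← e]; exact h4 T₀ hT₀
  | @three D D' T hD A B C E X Y W t m b x y z hT hP hE hE' hZ hdg hn hm ih =>
    obtain ⟨Ts, Us, h1, h2, h3, h4, h5, h6⟩ := ih
    obtain ⟨T', k1, k2⟩ := three_lift hthree hT hP hE hE' h1
    have hprs : tprs T' = prs x y z := by
      simp only [sig, Prod.mk.injEq] at k2
      obtain ⟨⟨e1, e2, e3⟩, e4, e5, e6⟩ := k2
      simp only [tprs, prs, kap, lc, Tri.pa₁, Tri.pb₁, Tri.pc₁, Pass.mate, e1, e2, e3, e4, e5, e6,
        Bool.not_true]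
    refine ⟨T' :: Ts, Us, k1, by rw [List.flatMap_cons, hprs, h2], fun T₀ hT₀ => ?_, h4,
      fun e he => ?_, hn⟩
    · rcases List.mem_cons.1 hT₀ with rfl | hT₀
      · rw [k2]; exact hZ
      · exact h3 T₀ hT₀
    · rcases List.mem_append.1 he with he | he
      · exact hdg e he
      · exact h5 e he
  | @inner D D' T hD A B C E X Y W t m b x y z hT hP hE hE' hZ hm ih =>
    obtain ⟨Ts, Us, h1, h2, h3, h4, h5, h6⟩ := ih
    obtain ⟨T', k1, k2⟩ := three_lift hthree hT hP hE hE' h1
    refine ⟨Ts, T' :: Us, invB_perm List.perm_middle.symm k1, h2, h3, fun T₀ hT₀ => ?_, h5, h6⟩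
    rcases List.mem_cons.1 hT₀ with rfl | hT₀
    · rw [k2]; exact hZ
    · exact h4 T₀ hT₀

theorem cn_drop {G : Type} [Group G] {L L' : List G} (hL : ∀ y ∈ L', y = 1) (h : CN (L ++ L')) :
    CN L := by
  induction L' with
  | nil => simpa using h
  | cons y L' ih =>
    have hy := hL y (by simp)
    subst hy
    exact ih (fun z hz => hL z (by simp [hz])) (CN.one_cons.1 (h.perm List.perm_middle))

/-- interior triple points may be dropped -/
theorem drop_inner {Z : ℕ → Prop} {D : Code} {Ts Us : List Tri}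
    (hDZ : ∀ p ∈ passes D, ¬Z (colour p.crossing)) (h : InvB D (Ts ++ Us))
    (hT : ∀ T ∈ Ts, ¬Z (sig T).1.1 ∧ ¬Z (sig T).1.2.1 ∧ ¬Z (sig T).1.2.2)
    (hU : ∀ T ∈ Us, Z (sig T).1.1 ∧ Z (sig T).1.2.1 ∧ Z (sig T).1.2.2) : InvB D Ts := by
  classical
  have hcode : ∀ T : Tri, T.Col → ∀ p ∈ passes T.code, colour p.crossing = (sig T).1.1 ∨
      colour p.crossing = (sig T).1.2.1 ∨ colour p.crossing = (sig T).1.2.2 := by
    intro T hc p hp
    obtain ⟨c1, c2, c3⟩ := hc
    rw [mem_code] at hp
    rcases hp with rfl | rfl | rfl | rfl | rfl | rfl | rfl | rfl | rfl | rfl | rfl | rfl <;>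
      simp [sig, Tri.pa₁, Tri.pa₂, Tri.pb₁, Tri.pb₂, Tri.pc₁, Tri.pc₂, Pass.mate, c1, c2, c3]
  have hZn : ∀ p ∈ passes (D ++ TC Ts), ¬Z (colour p.crossing) := by
    intro p hp
    rw [passes_append', List.mem_append] at hp
    rcases hp with hp | hp
    · exact hDZ p hp
    · obtain ⟨T, hTT, hp⟩ := mem_TC hp
      obtain ⟨k1, k2, k3⟩ := hT T hTT
      rcases hcode T (h.ok T (by simp [hTT])).2 p hp with e | e | e <;> rw [e] <;> assumption
  have hZu : ∀ p ∈ passes (TC Us), Z (colour p.crossing) := by
    intro p hp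
    obtain ⟨T, hTT, hp⟩ := mem_TC hp
    obtain ⟨k1, k2, k3⟩ := hU T hTT
    rcases hcode T (h.ok T (by simp [hTT])).2 p hp with e | e | e <;> rw [e] <;> assumption
  have hsplit : D ++ TC (Ts ++ Us) = (D ++ TC Ts) ++ TC Us := by
    rw [TC_append, List.append_assoc]
  obtain ⟨m, hm, hcm, hN⟩ := h.inv
  rw [hsplit] at hm hcm hN
  have hwf := h.wf
  rw [hsplit, passes_append'] at hwf
  rw [passes_append'] at hm hcm
  have hmem : ∀ q ∈ passes (D ++ TC Ts) ++ passes (TC Us), ¬Z (colour q.crossing) →
      q ∈ passes (D ++ TC Ts) := by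
    intro q hq hz
    rcases List.mem_append.1 hq with hq | hq
    · exact hq
    · exact absurd (hZu q hq) hz
  refine ⟨?_, fun T hT' => h.ok T (by simp [hT']), m, ?_, ?_, ?_⟩
  · -- WF
    refine ⟨fun p hp => ?_, ?_⟩
    · refine hmem _ (hwf.1 p (List.mem_append_left _ hp)) ?_
      exact hZn p hp
    · have := hwf.2
      rw [List.map_append] at this
      exact (List.nodup_append.1 this).1
  · intro p hp
    obtain ⟨q, hq, h1, h2, h3⟩ := hm p (List.mem_append_left _ hp)
    refine ⟨q, hmem q hq ?_, h1, h2, h3⟩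
    rw [h1, (hcm p (List.mem_append_left _ hp)).1]
    exact hZn p hp
  · exact fun p hp => hcm p (List.mem_append_left _ hp)
  · intro G _ o u hv b
    have hv' : Valid (passes ((D ++ TC Ts) ++ TC Us)) m
        (fun c => if Z (colour c) then (1 : G) else o c)
        (fun c => if Z (colour c) then (1 : G) else u c) := by
      intro p hp
      rw [passes_append'] at hp
      have hc := (hcm p hp).1
      by_cases hz : Z (colour p.crossing)
      · simp only [hc, hz, if_true, inv_one, implies_true, and_self]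
      · have hp' := hmem p hp hz
        obtain ⟨v1, v2⟩ := hv p hp'
        simp only [hc, hz, if_false]
        exact ⟨v1, v2⟩
    have h1 := hN G _ _ hv' b
    rw [vals_append, bv_append] at h1
    have e1 : vals (fun c => if Z (colour c) then (1 : G) else o c)
        (fun c => if Z (colour c) then (1 : G) else u c) (D ++ TC Ts) = vals o u (D ++ TC Ts) := by
      unfold vals
      refine List.map_congr_left fun C hC => ?_
      simp only [Prod.mk.injEq, and_true]
      refine wval_congr fun r hr => ?_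
      have := hZn r (mem_passes.2 ⟨C, hC, hr⟩)
      simp only [val, this, if_false]
    rw [e1] at h1
    refine cn_drop ?_ h1
    intro y hy
    simp only [bv, vals, List.mem_map, List.mem_filter] at hy
    obtain ⟨w, ⟨⟨C, hC, rfl⟩, -⟩, rfl⟩ := hy
    simp only
    have : ∀ w : List Pass, (∀ r ∈ w, Z (colour r.crossing)) →
        wval (fun c => if Z (colour c) then (1 : G) else o c)
        (fun c => if Z (colour c) then (1 : G) else u c) w = 1 := by
      intro w
      induction w with
      | nil => intro _; rfl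
      | cons r w ih =>
        intro hw
        rw [wval_cons, ih fun r' hr' => hw r' (by simp [hr'])]
        simp only [val, hw r (by simp), if_true, ite_self, mul_one]
    exact this C.1 fun r hr => hZu r (mem_passes.2 ⟨C, hC, hr⟩)

end Pool.Agent.Y874.TP2.T3
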